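import Pool.Agent.helper69.GR2B.Spec

set_option autoImplicit false

open Complex Metric Set Filter Topology MeasureTheory
open MPS (om)
open PPS (pre TT fd)
open XPS (Df er dens tau)
open Pool.Agent.helper16.Multibrot

noncomputable section

namespace GR

theorem BPG : BPG_stmt := by
  intro N g hN h0 hgN
  by_contra hcon
  push Not at hcon
  have hind : ∀ j : ℕ, j ≤ N → 2 ^ j * g 0 ≤ g j ∧ (1 ≤ j → 2 ^ j * g 0 < g j) := by
    intro j
    induction j with
    | zero =>
      intro _
      exact ⟨by simp, fun h => absurd h (by norm_num)⟩
    | succ j ih =>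
      intro hj
      have h1 := (ih (by omega)).1
      have h2 := hcon j (by omega)
      have h3 : 2 ^ (j + 1) * g 0 = 2 * (2 ^ j * g 0) := by ring
      constructor
      · rw [h3]; linarith
      · intro _
        rw [h3]; linarith
  have h4 := (hind N le_rfl).2 hN
  have h5 : (2 : ℝ) ^ N ≤ 2 ^ N * g 0 := le_mul_of_one_le_right (by positivity) h0
  linarith

end GR
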